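import Mathlib

/-!
# Representatives of the prime divisors with a property
-/

set_option autoImplicit false

namespace Pool.Agent.Helper38.QI

open UniqueFactorizationMonoid

/-- Representatives of the prime divisors of `d` with a property. -/
theorem exists_reps {R : Type*} [CommRing R] [IsDomain R] [UniqueFactorizationMonoid R] (d : R)
    (hd : d ≠ 0) (C : R → Prop) : ∃ (h : ℕ) (P : Fin h → R), (∀ i, Irreducible (P i) ∧ C (P i)) ∧
      (∀ i j, i ≠ j → ¬ Associated (P i) (P j)) ∧
      ∀ Q, Irreducible Q → Q ∣ d → C Q → ∃ i, Associated (P i) Q := by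
  classical
  let S : Set (Associates R) := {a | ∃ Q, Irreducible Q ∧ Q ∣ d ∧ C Q ∧ Associates.mk Q = a}
  have hfin : S.Finite := by
    refine (((factors d).map Associates.mk).toFinset.finite_toSet).subset ?_
    rintro a ⟨Q, hQ, hQd, -, rfl⟩
    obtain ⟨q, hq, hqQ⟩ := exists_mem_factors_of_dvd hd hQ hQd
    rw [Finset.mem_coe, Multiset.mem_toFinset, Multiset.mem_map]
    exact ⟨q, hq, (Associates.mk_eq_mk_iff_associated.mpr hqQ).symm⟩
  have : Finite S := hfin
  obtain ⟨h, ⟨e⟩⟩ := Finite.exists_equiv_fin S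
  choose P hP using fun i : Fin h => (e.symm i).2
  refine ⟨h, P, fun i => ⟨(hP i).1, (hP i).2.2.1⟩, fun i j hij has => ?_, fun Q hQ hQd hC => ?_⟩
  · apply hij
    apply e.symm.injective
    apply Subtype.ext
    rw [← (hP i).2.2.2, ← (hP j).2.2.2]
    exact Associates.mk_eq_mk_iff_associated.mpr has
  · refine ⟨e ⟨Associates.mk Q, Q, hQ, hQd, hC, rfl⟩, ?_⟩
    rw [← Associates.mk_eq_mk_iff_associated]
    have h1 := (hP (e ⟨Associates.mk Q, Q, hQ, hQd, hC, rfl⟩)).2.2.2
    rw [Equiv.symm_apply_apply] at h1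
    exact h1

end Pool.Agent.Helper38.QI
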